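import Pool.Agent.Y192.OG.StF
import Pool.Agent.TH152.HY.Fib

/-!
Evaluation of finitely generated rings of functions on a variety at points over fields.
-/

set_option autoImplicit false

namespace Pool.Agent.Y987.OG

open FF MvPolynomial Pool.Agent.W602.Cov.R Pool.Agent.TH152.HY Pool.Agent.Y192.OG

section

variable {N n : ℕ}

theorem bi_mul {G H : BiPoly N n} {D D' E E' : ℕ} (hG : BiHom G D D') (hH : BiHom H E E') :
    BiHom (G * H) (D + E) (D' + E') :=
  IsWeightedHomogeneous.mul hG hH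

theorem bi_add {G H : BiPoly N n} {D D' : ℕ} (hG : BiHom G D D') (hH : BiHom H D D') :
    BiHom (G + H) D D' :=
  IsWeightedHomogeneous.add hG hH

theorem bi_sub {G H : BiPoly N n} {D D' : ℕ} (hG : BiHom G D D') (hH : BiHom H D D') :
    BiHom (G - H) D D' :=
  IsWeightedHomogeneous.sub hG hH

theorem bi_C (c : ℂ) : BiHom (C c : BiPoly N n) 0 0 :=
  isWeightedHomogeneous_C _ c

theorem bi_one : BiHom (1 : BiPoly N n) 0 0 :=
  isWeightedHomogeneous_one _ _

theorem bi_pow {G : BiPoly N n} {D D' : ℕ} (hG : BiHom G D D') (T : ℕ) :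
    BiHom (G ^ T) (T * D) (T * D') := by
  induction T with
  | zero => simpa using bi_one
  | succ T ih =>
    rw [pow_succ]
    have := bi_mul ih hG
    rwa [← Nat.succ_mul, ← Nat.succ_mul] at this

theorem bi_prod {ι : Type*} (s : Finset ι) {G : ι → BiPoly N n} {D D' : ι → ℕ}
    (h : ∀ i ∈ s, BiHom (G i) (D i) (D' i)) :
    BiHom (∏ i ∈ s, G i) (∑ i ∈ s, D i) (∑ i ∈ s, D' i) := by
  classical
  induction s using Finset.induction with
  | empty => simpa using bi_one
  | insert i s hi ih =>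
    rw [Finset.prod_insert hi, Finset.sum_insert hi, Finset.sum_insert hi]
    exact bi_mul (h i (by simp)) (ih fun j hj => h j (by simp [hj]))

theorem bi_X_inl (i : Fin (N + 1)) : BiHom (X (Sum.inl i) : BiPoly N n) 1 0 := by
  have := isWeightedHomogeneous_X (R := ℂ) (Sum.elim (fun _ : Fin (N + 1) => ((1 : ℕ), (0 : ℕ)))
    fun _ : Fin (n + 1) => ((0 : ℕ), (1 : ℕ))) (Sum.inl i)
  exact this

theorem bi_X_inr (i : Fin (n + 1)) : BiHom (X (Sum.inr i) : BiPoly N n) 0 1 := by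
  have := isWeightedHomogeneous_X (R := ℂ) (Sum.elim (fun _ : Fin (N + 1) => ((1 : ℕ), (0 : ℕ)))
    fun _ : Fin (n + 1) => ((0 : ℕ), (1 : ℕ))) (Sum.inr i)
  exact this

/-- `f` is a quotient of bihomogeneous polynomials of the same bidegree -/
def Rat {L : Type} [Field L] [Algebra ℂ L] (a : Fin (N + 1) → L) (b : Fin (n + 1) → L)
    (f : L) : Prop :=
  ∃ (A C : BiPoly N n) (D D' : ℕ), BiHom A D D' ∧ BiHom C D D' ∧
    aeval (Sum.elim a b) C ≠ 0 ∧ f * aeval (Sum.elim a b) C = aeval (Sum.elim a b) A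

variable {L : Type} [Field L] [Algebra ℂ L] {a : Fin (N + 1) → L} {b : Fin (n + 1) → L}

theorem rat_alg (c : ℂ) : Rat a b (algebraMap ℂ L c) :=
  ⟨C c, 1, 0, 0, bi_C c, bi_one, by simp, by simp⟩

theorem rat_add {f g : L} (hf : Rat a b f) (hg : Rat a b g) : Rat a b (f + g) := by
  obtain ⟨A, C, D, D', h1, h2, h3, h4⟩ := hf
  obtain ⟨A₁, C₁, E, E', k1, k2, k3, k4⟩ := hg
  refine ⟨A * C₁ + A₁ * C, C * C₁, D + E, D' + E', ?_, bi_mul h2 k2, ?_, ?_⟩
  · refine bi_add (bi_mul h1 k2) ?_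
    have := bi_mul k1 h2
    rwa [add_comm E D, add_comm E' D'] at this
  · rw [map_mul]
    exact mul_ne_zero h3 k3
  · rw [map_mul, map_add, map_mul, map_mul, ← h4, ← k4]
    ring

theorem rat_mul {f g : L} (hf : Rat a b f) (hg : Rat a b g) : Rat a b (f * g) := by
  obtain ⟨A, C, D, D', h1, h2, h3, h4⟩ := hf
  obtain ⟨A₁, C₁, E, E', k1, k2, k3, k4⟩ := hg
  refine ⟨A * A₁, C * C₁, D + E, D' + E', bi_mul h1 k1, bi_mul h2 k2, ?_, ?_⟩
  · rw [map_mul]
    exact mul_ne_zero h3 k3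
  · rw [map_mul, map_mul, ← h4, ← k4]
    ring

theorem rat_inv {f : L} (hf : Rat a b f) : Rat a b f⁻¹ := by
  obtain ⟨A, C, D, D', h1, h2, h3, h4⟩ := hf
  by_cases h0 : f = 0
  · subst h0
    rw [inv_zero]
    have := rat_alg (a := a) (b := b) 0
    rwa [map_zero] at this
  · refine ⟨C, A, D, D', h2, h1, ?_, ?_⟩
    · rw [← h4]
      exact mul_ne_zero h0 h3
    · rw [← h4, ← mul_assoc, inv_mul_cancel₀ h0, one_mul]

theorem rat_all {X : BiSet N n} (hF : X.FunctionField L a b) (f : L) : Rat a b f := by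
  have hf : f ∈ IntermediateField.adjoin ℂ
    ({f | ∃ i j, a j ≠ 0 ∧ f = a i / a j} ∪ {f | ∃ i j, b j ≠ 0 ∧ f = b i / b j}) := by
    rw [hF.gen]
    trivial
  induction hf using IntermediateField.adjoin_induction with
  | mem x hx =>
    rcases hx with ⟨i, j, hj, rfl⟩ | ⟨i, j, hj, rfl⟩
    · exact ⟨MvPolynomial.X (Sum.inl i), MvPolynomial.X (Sum.inl j), 1, 0, bi_X_inl i, bi_X_inl j,
        by simpa using hj, by simp [div_mul_cancel₀ _ hj]⟩
    · exact ⟨MvPolynomial.X (Sum.inr i), MvPolynomial.X (Sum.inr j), 0, 1, bi_X_inr i, bi_X_inr j,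
        by simpa using hj, by simp [div_mul_cancel₀ _ hj]⟩
  | algebraMap x => exact rat_alg x
  | add x y _ _ hx hy => exact rat_add hx hy
  | inv x _ hx => exact rat_inv hx
  | mul x y _ _ hx hy => exact rat_mul hx hy

/-- homogenisation -/
theorem exists_hom {σ : Type} {A : σ → BiPoly N n} {B : BiPoly N n} {E E' : ℕ}
    (hA : ∀ s, BiHom (A s) E E') (hB : BiHom B E E') (p : MvPolynomial σ ℂ) :
    ∃ (T : ℕ) (H : BiPoly N n), BiHom H (T * E) (T * E') ∧
      ∀ (M : Type) [Field M] [Algebra ℂ M] (u : Fin (N + 1) → M) (v : Fin (n + 1) → M),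
        aeval (Sum.elim u v) B ≠ 0 → aeval (Sum.elim u v) H = aeval (Sum.elim u v) B ^ T *
          aeval (fun s => aeval (Sum.elim u v) (A s) / aeval (Sum.elim u v) B) p := by
  induction p using MvPolynomial.induction_on with
  | C c =>
    refine ⟨0, C c, by simpa using bi_C c, fun M _ _ u v _ => ?_⟩
    simp
  | add p q hp hq =>
    obtain ⟨T, H, h1, h2⟩ := hp
    obtain ⟨T₁, H₁, k1, k2⟩ := hq
    refine ⟨T + T₁, H * B ^ T₁ + H₁ * B ^ T, ?_, fun M _ _ u v hM => ?_⟩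
    · rw [add_mul, add_mul]
      refine bi_add (bi_mul h1 (bi_pow hB T₁)) ?_
      have := bi_mul k1 (bi_pow hB T)
      rwa [add_comm (T₁ * E), add_comm (T₁ * E')] at this
    · rw [map_add, map_mul, map_mul, map_pow, map_pow, h2 M u v hM, k2 M u v hM, map_add]
      ring
  | mul_X p s hp =>
    obtain ⟨T, H, h1, h2⟩ := hp
    refine ⟨T + 1, H * A s, ?_, fun M _ _ u v hM => ?_⟩
    · rw [Nat.succ_mul, Nat.succ_mul]
      exact bi_mul h1 (hA s)
    · rw [map_mul, h2 M u v hM, map_mul, aeval_X, pow_succ]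
      field_simp

theorem t_eval : St_eval := by
  classical
  intro N n X L _ _ a b hF R hR
  obtain ⟨S, hS⟩ := hR
  have hrat := fun s : S => rat_all hF (s : L)
  choose A₀ C₀ D D' hA hC hne hval using hrat
  set B : BiPoly N n := ∏ s : S, C₀ s with hBdef
  set E := ∑ s : S, D s with hE
  set E' := ∑ s : S, D' s with hE'
  have hB : BiHom B E E' := bi_prod Finset.univ fun s _ => hC s
  have hBne : aeval (Sum.elim a b) B ≠ 0 := by
    rw [hBdef, map_prod]
    exact Finset.prod_ne_zero_iff.2 fun s _ => hne s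
  set A : S → BiPoly N n := fun s => A₀ s * ∏ t ∈ Finset.univ.erase s, C₀ t with hAdef
  have hAh : ∀ s, BiHom (A s) E E' := by
    intro s
    have h := bi_mul (hA s) (bi_prod (Finset.univ.erase s) fun t _ => hC t)
    rw [Finset.add_sum_erase _ _ (Finset.mem_univ s),
      Finset.add_sum_erase _ _ (Finset.mem_univ s)] at h
    exact h
  have hAval : ∀ s : S, aeval (Sum.elim a b) (A s) / aeval (Sum.elim a b) B = (s : L) := by
    intro s
    rw [div_eq_iff hBne]
    have h1 : B = C₀ s * ∏ t ∈ Finset.univ.erase s, C₀ t :=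
      (Finset.mul_prod_erase _ _ (Finset.mem_univ s)).symm
    rw [h1]
    simp only [hAdef]
    rw [map_mul, map_mul, ← hval s]
    ring
  set ψ : MvPolynomial S ℂ →ₐ[ℂ] L := aeval (fun s : S => (s : L)) with hψ
  have hRr : R = ψ.range := by
    rw [← hS, hψ, ← Algebra.adjoin_range_eq_range_aeval]
    congr 1
    simp
  subst hRr
  refine ⟨B, E, E', hB, hBne, ?_⟩
  intro M _ _ u v hmem hM
  set φ₀ : MvPolynomial S ℂ →ₐ[ℂ] M :=
    aeval (fun s => aeval (Sum.elim u v) (A s) / aeval (Sum.elim u v) B) with hφ₀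
  have hψ' : ψ = aeval (fun s => aeval (Sum.elim a b) (A s) / aeval (Sum.elim a b) B) := by
    rw [hψ]
    congr 1
    funext s
    exact (hAval s).symm
  -- bihomogeneous polynomials which vanish at the generic point
  have hvan : ∀ (G : BiPoly N n) (D D' : ℕ), BiHom G D D' → aeval (Sum.elim a b) G = 0 →
      aeval (Sum.elim u v) G = 0 := fun G D D' hG h0 =>
    null ((hF.van G D D' hG).1 h0) hmem
  have hker : ∀ p : MvPolynomial S ℂ, ψ p = 0 → φ₀ p = 0 := by
    intro p hp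
    obtain ⟨T, H, h1, h2⟩ := exists_hom hAh hB p
    have h3 : aeval (Sum.elim a b) H = 0 := by
      rw [h2 L a b hBne, ← hψ', hp, mul_zero]
    have h4 := hvan H _ _ h1 h3
    rw [h2 M u v hM] at h4
    exact (mul_eq_zero.1 h4).resolve_left (pow_ne_zero _ hM)
  let e := Ideal.quotientKerEquivRange (R := ℂ) ψ
  let φ₁ : (MvPolynomial S ℂ ⧸ RingHom.ker ψ) →ₐ[ℂ] M :=
    Ideal.Quotient.liftₐ (RingHom.ker ψ) φ₀ fun p hp => hker p hp
  refine ⟨φ₁.comp (e.symm : ψ.range →ₐ[ℂ] _), ?_⟩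
  rintro ⟨r, p, hp⟩ A' C' F F' hA' hC' hr
  have hφ : φ₁.comp (e.symm : ψ.range →ₐ[ℂ] _) ⟨r, p, hp⟩ = φ₀ p := by
    have h1 : e (Ideal.Quotient.mk _ p) = ⟨r, p, hp⟩ := by
      apply Subtype.ext
      exact hp
    show φ₁ (e.symm ⟨r, p, hp⟩) = φ₀ p
    rw [← h1, AlgEquiv.symm_apply_apply]
    rfl
  rw [hφ]
  obtain ⟨T, H, h1, h2⟩ := exists_hom hAh hB p
  have hp' : ψ p = r := hp
  have h3 : BiHom (H * C' - A' * B ^ T) (T * E + F) (T * E' + F') := by
    refine bi_sub (bi_mul h1 hC') ?_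
    have := bi_mul hA' (bi_pow hB T)
    rwa [add_comm F, add_comm F'] at this
  have h4 : aeval (Sum.elim a b) (H * C' - A' * B ^ T) = 0 := by
    rw [map_sub, map_mul, map_mul, map_pow, h2 L a b hBne, ← hψ', hp']
    simp only at hr
    rw [← hr]
    ring
  have h5 := hvan _ _ _ h3 h4
  rw [map_sub, map_mul, map_mul, map_pow, h2 M u v hM] at h5
  have h6 : aeval (Sum.elim u v) B ^ T ≠ 0 := pow_ne_zero _ hM
  have h7 : aeval (Sum.elim u v) B ^ T * (φ₀ p * aeval (Sum.elim u v) C'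
      - aeval (Sum.elim u v) A') = 0 := by
    rw [← h5]
    ring
  have h8 := (mul_eq_zero.1 h7).resolve_left h6
  exact sub_eq_zero.1 h8

end

end Pool.Agent.Y987.OG
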